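import Pool.Agent.K3S.Pc
import Pool.Agent.K3A.UpG

/-!
Disjoint unions of pieces, odd cycles, and the graphs `G_q` as pieces.
-/

open Finset

namespace Pool.Agent.TwoDens.K3S

section
variable {V W : Type} [DecidableEq V] [DecidableEq W]

/-- disjoint union of two graphs -/
def uG (G : SimpleGraph V) (H : SimpleGraph W) : SimpleGraph (V ⊕ W) where
  Adj x y := match x, y with
    | Sum.inl u, Sum.inl v => G.Adj u v
    | Sum.inr u, Sum.inr v => H.Adj u v
    | _, _ => False
  symm := ⟨fun x y h => by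
    rcases x with u | u <;> rcases y with v | v
    · exact SimpleGraph.Adj.symm (G := G) h
    · exact h
    · exact h
    · exact SimpleGraph.Adj.symm (G := H) h⟩
  loopless := ⟨fun x h => by
    rcases x with u | u
    · exact G.loopless.irrefl u h
    · exact H.loopless.irrefl u h⟩

instance (G : SimpleGraph V) (H : SimpleGraph W) [DecidableRel G.Adj] [DecidableRel H.Adj] :
    DecidableRel (uG G H).Adj := fun x y =>
  match x, y with
  | Sum.inl u, Sum.inl v => inferInstanceAs (Decidable (G.Adj u v))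
  | Sum.inr u, Sum.inr v => inferInstanceAs (Decidable (H.Adj u v))
  | Sum.inl _, Sum.inr _ => inferInstanceAs (Decidable False)
  | Sum.inr _, Sum.inl _ => inferInstanceAs (Decidable False)

theorem nb_inl (G : SimpleGraph V) (H : SimpleGraph W) [DecidableRel G.Adj] [DecidableRel H.Adj]
    (S : Finset (V ⊕ W)) (x : V) :
    (S.filter ((uG G H).Adj (Sum.inl x))).card = (S.toLeft.filter (G.Adj x)).card := by
  have h : S.filter ((uG G H).Adj (Sum.inl x)) =
      (S.toLeft.filter (G.Adj x)).map Function.Embedding.inl := by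
    ext y
    rcases y with v | v
    · simp only [mem_filter, mem_map, mem_toLeft, Function.Embedding.inl_apply,
        Sum.inl.injEq, exists_eq_right]
      rfl
    · simp only [mem_filter, mem_map, mem_toLeft, Function.Embedding.inl_apply, reduceCtorEq,
        and_false, exists_false, iff_false]
      exact fun h => h.2
  rw [h, Finset.card_map]

theorem nb_inr (G : SimpleGraph V) (H : SimpleGraph W) [DecidableRel G.Adj] [DecidableRel H.Adj]
    (S : Finset (V ⊕ W)) (x : W) :
    (S.filter ((uG G H).Adj (Sum.inr x))).card = (S.toRight.filter (H.Adj x)).card := by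
  have h : S.filter ((uG G H).Adj (Sum.inr x)) =
      (S.toRight.filter (H.Adj x)).map Function.Embedding.inr := by
    ext y
    rcases y with v | v
    · simp only [mem_filter, mem_map, mem_toRight, Function.Embedding.inr_apply, reduceCtorEq,
        and_false, exists_false, iff_false]
      exact fun h => h.2
    · simp only [mem_filter, mem_map, mem_toRight, Function.Embedding.inr_apply,
        Sum.inr.injEq, exists_eq_right]
      rfl
  rw [h, Finset.card_map]

theorem e2_uG (G : SimpleGraph V) (H : SimpleGraph W) [DecidableRel G.Adj] [DecidableRel H.Adj]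
    (S : Finset (V ⊕ W)) : e2 (uG G H) S = e2 G S.toLeft + e2 H S.toRight := by
  have h : S = S.toLeft.disjSum S.toRight := (Finset.toLeft_disjSum_toRight).symm
  unfold e2
  conv_lhs => rw [h]
  rw [Finset.sum_disjSum, ← h]
  congr 1
  · exact Finset.sum_congr rfl (fun x _ => nb_inl G H S x)
  · exact Finset.sum_congr rfl (fun x _ => nb_inr G H S x)

theorem card_lr (S : Finset (V ⊕ W)) : S.card = S.toLeft.card + S.toRight.card :=
  (Finset.card_toLeft_add_card_toRight).symm

/-- the weight of a set in a piece -/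
theorem weight {D : ℝ} (hD : 1 ≤ D) (G : SimpleGraph V) [DecidableRel G.Adj]
    (h : ∀ S : Finset V, 2 ≤ S.card → (e2 G S : ℝ) ≤ 2 + 2 * D * ((S.card : ℝ) - 2))
    (S : Finset V) : (S.card = 0 ∧ (e2 G S : ℝ) = 0) ∨ (e2 G S : ℝ) ≤ 2 * D * S.card - 2 * D := by
  rcases (show S.card = 0 ∨ S.card = 1 ∨ 2 ≤ S.card by omega) with h1 | h1 | h1
  · left
    refine ⟨h1, ?_⟩
    rw [Finset.card_eq_zero] at h1
    rw [h1]
    unfold e2
    simp
  · right
    obtain ⟨a, rfl⟩ := Finset.card_eq_one.1 h1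
    have h2 : e2 G {a} = 0 := by
      unfold e2
      rw [sum_singleton, Finset.card_eq_zero, Finset.filter_eq_empty_iff]
      intro b hb
      rw [mem_singleton] at hb
      rw [hb]
      exact G.loopless.irrefl a
    rw [h2, h1]
    push_cast
    linarith
  · right
    have h2 := h S h1
    linarith

end

/-- disjoint union of pieces -/
theorem Pc.add {D : ℝ} {n a n' a' : ℕ} (hD : 1 ≤ D) (h : Pc D n a) (h' : Pc D n' a') :
    Pc D (n + n') (a + a') := by
  obtain ⟨V, f1, f2, G, f3, f4, f5, f6⟩ := h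
  obtain ⟨W, g1, g2, H, g3, g4, g5, g6⟩ := h'
  refine ⟨V ⊕ W, inferInstance, inferInstance, uG G H, inferInstance, ?_, ?_, ?_⟩
  · rw [Fintype.card_sum, f4, g4]
  · intro I hI
    rw [card_lr]
    refine Nat.add_le_add (f5 _ ?_) (g5 _ ?_)
    · intro x hx y hy hxy
      rw [Finset.mem_coe, mem_toLeft] at hx hy
      exact hI (Finset.mem_coe.2 hx) (Finset.mem_coe.2 hy) (fun h => hxy (Sum.inl.inj h))
    · intro x hx y hy hxy
      rw [Finset.mem_coe, mem_toRight] at hx hy
      exact hI (Finset.mem_coe.2 hx) (Finset.mem_coe.2 hy) (fun h => hxy (Sum.inr.inj h))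
  · intro S hS
    rw [e2_uG]
    have hc := card_lr S
    have hc' : (S.card : ℝ) = S.toLeft.card + S.toRight.card := by exact_mod_cast hc
    push_cast
    rcases weight hD G f6 S.toLeft with ⟨k1, k2⟩ | k1
    · rw [k2, zero_add]
      have k3 : S.toRight.card = S.card := by omega
      have k4 := g6 S.toRight (by omega)
      rwa [k3] at k4
    · rcases weight hD H g6 S.toRight with ⟨l1, l2⟩ | l1
      · rw [l2, add_zero]
        have k3 : S.toLeft.card = S.card := by omega
        have k4 := f6 S.toLeft (by omega)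
        rwa [k3] at k4
      · rw [hc']
        linarith

theorem Pc.zero (D : ℝ) : Pc D 0 0 := by
  refine ⟨Empty, inferInstance, inferInstance, ⊥, inferInstance, rfl, ?_, ?_⟩
  · intro I _
    rw [Finset.eq_empty_of_isEmpty I, card_empty]
  · intro S hS
    rw [Finset.eq_empty_of_isEmpty S, card_empty] at hS
    omega

/-- several copies -/
theorem Pc.mul {D : ℝ} {n a : ℕ} (hD : 1 ≤ D) (h : Pc D n a) (k : ℕ) :
    Pc D (k * n) (k * a) := by
  induction k with
  | zero =>
    rw [Nat.zero_mul, Nat.zero_mul]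
    exact Pc.zero D
  | succ k ih =>
    rw [Nat.add_mul, Nat.add_mul, Nat.one_mul, Nat.one_mul]
    exact ih.add hD h

/-- the graphs `G_q` -/
theorem Pc.hub {p Q : ℕ} (h : p ≤ Q) :
    Pc ((9 * (p : ℝ) + 4) / (7 * p + 3)) (7 * Q + 5) (3 * Q + 2) :=
  Pc.ofNat (K3A.hub Q) (fun _ hS hI => K3A.hub_alpha hS hI)
    (fun _ hS h2 => K3A.hub_dens h hS h2)

/-- smaller neighbours in the cycle with the vertices `0, ..., 2 a` -/
def cycD (a n : ℕ) : Finset ℕ :=
  if n = 0 then ∅ else if n = 2 * a then {n - 1, 0} else {n - 1}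

section
open K3A

theorem cycD_one {a n : ℕ} (h0 : n ≠ 0) (h1 : n ≠ 2 * a) : cycD a n = {n - 1} := by
  unfold cycD
  rw [if_neg h0, if_neg h1]

theorem cycD_last {a : ℕ} (ha : 1 ≤ a) : cycD a (2 * a) = {2 * a - 1, 0} := by
  unfold cycD
  rw [if_neg (by omega), if_pos rfl]

theorem cyc_inv {a : ℕ} (S : Finset ℕ) : ∀ n : ℕ, n + 1 ≤ 2 * a →
    ((blw S (n + 1)).card = 0 ∧ e2 (dnG (cycD a)) (blw S (n + 1)) = 0 ∧ bt S 0 = 0 ∧
      bt S n = 0) ∨
    (1 ≤ (blw S (n + 1)).card ∧
      e2 (dnG (cycD a)) (blw S (n + 1)) + 2 ≤ 2 * (blw S (n + 1)).card ∧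
      (bt S 0 = 1 → bt S n = 1 → (blw S (n + 1)).card = n + 1 ∨
        e2 (dnG (cycD a)) (blw S (n + 1)) + 4 ≤ 2 * (blw S (n + 1)).card)) := by
  have hb : ∀ x, bt S x ≤ 1 := fun x => Bool.toNat_le _
  intro n
  induction n with
  | zero =>
    intro _
    have h1 := e2_blw_succ (D := cycD a) S (n := 0) (fun y hy => by
      unfold cycD at hy
      rw [if_pos rfl] at hy
      exact absurd hy (notMem_empty y))
    have h2 := card_blw_succ S 0
    have h3 : cycD a 0 = ∅ := by
      unfold cycD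
      rw [if_pos rfl]
    have h4 : e2 (dnG (cycD a)) ∅ = 0 := by
      unfold e2
      exact sum_empty
    rw [h3, sum_empty, mul_zero, mul_zero, Nat.add_zero, blw_zero, h4] at h1
    rw [blw_zero, card_empty, Nat.zero_add] at h2
    have h5 := hb 0
    rw [h1, h2]
    omega
  | succ n ih =>
    intro hn
    have h0 := ih (by omega)
    have h1 := e2_blw_one (D := cycD a) S (n := n + 1) (p := n)
      (cycD_one (by omega) (by omega)) (by omega)
    have h2 := card_blw_succ S (n + 1)
    have h3 := hb (n + 1)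
    have h4 := hb n
    have h5 := hb 0
    rw [h1, h2]
    rcases (show bt S (n + 1) = 0 ∨ bt S (n + 1) = 1 by omega) with h6 | h6
    · rw [h6, zero_mul]
      omega
    · rw [h6, one_mul]
      omega

theorem cyc_sparse {a : ℕ} (ha : 1 ≤ a) {S : Finset ℕ} (hS : S ⊆ range (2 * a + 1))
    (h2 : 2 ≤ S.card) : e2 (dnG (cycD a)) S + 2 ≤ 2 * S.card ∨
      (S.card = 2 * a + 1 ∧ e2 (dnG (cycD a)) S ≤ 2 * S.card) := by
  have hb : ∀ x, bt S x ≤ 1 := fun x => Bool.toNat_le _
  have h0 := cyc_inv (a := a) S (2 * a - 1) (by omega)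
  rw [show 2 * a - 1 + 1 = 2 * a by omega] at h0
  have h3 := card_blw_succ S (2 * a)
  have h5 := hb (2 * a)
  have h6 := hb (2 * a - 1)
  have h7 := hb 0
  have h4 : e2 (dnG (cycD a)) (blw S (2 * a + 1)) = e2 (dnG (cycD a)) (blw S (2 * a)) +
      2 * (bt S (2 * a) * (bt S (2 * a - 1) + bt S 0)) :=
    e2_blw_two (D := cycD a) S (cycD_last ha) (by omega) (by omega) (by omega)
  rw [blw_self hS] at h3 h4
  rcases (show bt S (2 * a) = 0 ∨ bt S (2 * a) = 1 by omega) with h8 | h8
  · rw [h8, zero_mul] at h4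
    omega
  · rw [h8, one_mul] at h4
    omega

theorem cyc_alpha {a : ℕ} (ha : 1 ≤ a) {S : Finset ℕ} (hS : S ⊆ range (2 * a + 1))
    (hI : (dnG (cycD a)).IsIndepSet (S : Set ℕ)) : S.card ≤ a := by
  have hb : ∀ x, bt S x ≤ 1 := fun x => Bool.toNat_le _
  have key : ∀ x y : ℕ, x < y → x ∈ cycD a y → bt S x + bt S y ≤ 1 := by
    intro x y h1 h2
    by_cases hx : x ∈ S
    · by_cases hy : y ∈ S
      · exact absurd (dnG_of h1 h2)
          (hI (mem_coe.2 hx) (mem_coe.2 hy) (Nat.ne_of_lt h1))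
      · rw [bt_pos hx, bt_neg hy]
    · rw [bt_neg hx]
      by_cases hy : y ∈ S
      · rw [bt_pos hy]
      · rw [bt_neg hy]
        omega
  have hone : ∀ y : ℕ, bt S y + bt S (y + 1) ≤ 1 := by
    intro y
    refine key y (y + 1) (by omega) ?_
    unfold cycD
    rw [if_neg (by omega)]
    split_ifs <;> simp
  have hlast : bt S 0 + bt S (2 * a) ≤ 1 := by
    refine key 0 (2 * a) (by omega) ?_
    rw [cycD_last ha]
    simp
  have heven : ∀ j : ℕ, (blw S (2 * j)).card ≤ j := by
    intro j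
    induction j with
    | zero => rw [Nat.mul_zero, blw_zero, card_empty]
    | succ j ih =>
      have h1 := card_blw_succ S (2 * j)
      have h2 := card_blw_succ S (2 * j + 1)
      have h3 := hone (2 * j)
      rw [show 2 * (j + 1) = 2 * j + 1 + 1 by ring]
      omega
  have hodd : ∀ j : ℕ, (blw S (2 * j + 1)).card ≤ j + bt S 0 := by
    intro j
    induction j with
    | zero =>
      have h1 := card_blw_succ S 0
      rw [blw_zero, card_empty] at h1
      rw [Nat.mul_zero]
      omega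
    | succ j ih =>
      have h1 := card_blw_succ S (2 * j + 1)
      have h2 := card_blw_succ S (2 * j + 1 + 1)
      have h3 := hone (2 * j + 1)
      rw [show 2 * (j + 1) + 1 = 2 * j + 1 + 1 + 1 by ring]
      omega
  have h1 := heven a
  have h2 := hodd (a - 1)
  have h3 := card_blw_succ S (2 * a)
  have h4 := card_blw_succ S (2 * a - 1)
  have h5 := hone (2 * a - 1)
  rw [show 2 * a - 1 + 1 = 2 * a by omega] at h4 h5
  rw [show 2 * (a - 1) + 1 = 2 * a - 1 by omega] at h2
  rw [blw_self hS] at h3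
  have h6 := hb (2 * a)
  omega

end

/-- odd cycles -/
theorem Pc.cyc {a : ℕ} (ha : 1 ≤ a) : Pc (1 + 1 / (2 * (a : ℝ) - 1)) (2 * a + 1) a := by
  refine Pc.ofNat (K3A.dnG (cycD a)) (fun S hS hI => cyc_alpha ha hS hI) ?_
  intro S hS h2
  have ha' : (1 : ℝ) ≤ a := by exact_mod_cast ha
  have hpos : (0 : ℝ) < 2 * (a : ℝ) - 1 := by linarith
  have h3 : (2 : ℝ) ≤ S.card := by exact_mod_cast h2
  rcases cyc_sparse ha hS h2 with h | ⟨h, h'⟩
  · have h4 : (e2 (K3A.dnG (cycD a)) S : ℝ) + 2 ≤ 2 * S.card := by exact_mod_cast h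
    have h5 : (0 : ℝ) ≤ 1 / (2 * (a : ℝ) - 1) * ((S.card : ℝ) - 2) :=
      mul_nonneg (by positivity) (by linarith)
    linarith
  · have h4 : (e2 (K3A.dnG (cycD a)) S : ℝ) ≤ 2 * S.card := by exact_mod_cast h'
    have h5 : (S.card : ℝ) = 2 * a + 1 := by exact_mod_cast h
    rw [h5] at h4 ⊢
    have h6 : 1 / (2 * (a : ℝ) - 1) * ((2 * a + 1 : ℝ) - 2) = 1 := by
      rw [show (2 * a + 1 : ℝ) - 2 = 2 * a - 1 by ring]
      field_simp
    linarith

end Pool.Agent.TwoDens.K3S
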