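import Mathlib

/-!
The arithmetic of one block of the split chain: the invariant of the density count.
-/

namespace Pool.Agent.TwoDens.K3S

/-- The invariant: `p` is the weight of the part of the set in the blocks seen so far (at least two
elements), `a`, `b`, `c` are the indicators of the three vertices with later neighbours. -/
def Inv (θ v p a b c : ℝ) : Prop :=
  1 + 2 * θ ≤ p ∧ 2 + 2 * θ - v - 2 * (3 - a - b - c) ≤ p ∧
    (1 + 4 * θ - 2 * (2 - a - b) - 2 * c ≤ p ∨ 3 + θ - v - 2 * (2 - a - b) - 2 * c ≤ p)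

/-- weight added by a block which is not split -/
def du (θ a b c A C B : ℝ) : ℝ :=
  A * (1 + θ - a - b) + C * (1 + θ - A) + B * (1 + θ - C - c)

/-- weight added by a block which is split -/
def ds (θ a b c A W Z C B : ℝ) : ℝ :=
  A * (1 + θ - a) + W * (1 + θ - A) + Z * (1 + θ - W - b) + C * (1 + θ - Z) +
    B * (1 + θ - C - c)

theorem fab {θ v p a b c : ℝ} (h2 : θ ≤ 1 / 2)
    (ha : a = 0 ∨ a = 1) (hb : b = 0 ∨ b = 1) (hc : c = 0 ∨ c = 1) (hi : Inv θ v p a b c) :
    4 * θ - 1 ≤ p - a - b ∨ 2 * θ - v ≤ p - a - b := by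
  obtain ⟨i1, i2, i3⟩ := hi
  rcases ha with rfl | rfl
  · left
    rcases hb with rfl | rfl <;> linarith
  · rcases hb with rfl | rfl
    · left
      linarith
    · rcases hc with rfl | rfl
      · rcases i3 with i3 | i3
        · left
          linarith
        · right
          linarith
      · right
        linarith

theorem fac {θ v p a b c : ℝ}
    (ha : a = 0 ∨ a = 1) (hb : b = 0 ∨ b = 1) (hc : c = 0 ∨ c = 1) (hi : Inv θ v p a b c) :
    2 * θ - 1 ≤ p - a - c := by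
  obtain ⟨i1, i2, i3⟩ := hi
  rcases ha with rfl | rfl <;> rcases hb with rfl | rfl <;> rcases hc with rfl | rfl <;> linarith

theorem fbc {θ v p a b c : ℝ}
    (ha : a = 0 ∨ a = 1) (hb : b = 0 ∨ b = 1) (hc : c = 0 ∨ c = 1) (hi : Inv θ v p a b c) :
    2 * θ - 1 ≤ p - b - c := by
  obtain ⟨i1, i2, i3⟩ := hi
  rcases ha with rfl | rfl <;> rcases hb with rfl | rfl <;> rcases hc with rfl | rfl <;> linarith

theorem fabc {θ v p a b c : ℝ} (v0 : 0 ≤ v)
    (ha : a = 0 ∨ a = 1) (hb : b = 0 ∨ b = 1) (hc : c = 0 ∨ c = 1) (hi : Inv θ v p a b c) :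
    2 * θ - 1 - v ≤ p - a - b - c := by
  obtain ⟨i1, i2, i3⟩ := hi
  rcases ha with rfl | rfl <;> rcases hb with rfl | rfl <;> rcases hc with rfl | rfl <;> linarith

theorem step_u {θ v p a b c A C B : ℝ} (h1 : 1 / 3 ≤ θ) (h2 : θ ≤ 1 / 2) (v0 : 0 ≤ v)
    (v1 : v ≤ 3 * θ - 1) (ha : a = 0 ∨ a = 1) (hb : b = 0 ∨ b = 1) (hc : c = 0 ∨ c = 1)
    (hA : A = 0 ∨ A = 1) (hC : C = 0 ∨ C = 1) (hB : B = 0 ∨ B = 1) (hi : Inv θ v p a b c) :
    Inv θ (v + 2 - 3 * θ) (p + du θ a b c A C B) A B C := by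
  have f0 : 1 + 2 * θ ≤ p := hi.1
  have f1 := fab h2 ha hb hc hi
  have f2 := fabc v0 ha hb hc hi
  have f3 : 2 * θ ≤ p - c := by rcases hc with rfl | rfl <;> linarith
  clear hi ha hb hc
  unfold Inv du
  rcases hA with rfl | rfl <;> rcases hC with rfl | rfl <;> rcases hB with rfl | rfl <;>
    rcases f1 with f1 | f1 <;> refine ⟨by linarith, by linarith, ?_⟩ <;>
    first
      | (left; linarith)
      | (right; linarith)

theorem step_s {θ v p a b c A W Z C B : ℝ} (h1 : 1 / 3 ≤ θ) (h2 : θ ≤ 1 / 2) (v0 : 0 ≤ v)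
    (v1 : v ≤ 2 * θ) (v2 : 5 * θ - 2 ≤ v)
    (ha : a = 0 ∨ a = 1) (hb : b = 0 ∨ b = 1) (hc : c = 0 ∨ c = 1)
    (hA : A = 0 ∨ A = 1) (hW : W = 0 ∨ W = 1) (hZ : Z = 0 ∨ Z = 1) (hC : C = 0 ∨ C = 1)
    (hB : B = 0 ∨ B = 1) (hi : Inv θ v p a b c) :
    Inv θ (v + 2 - 5 * θ) (p + ds θ a b c A W Z C B) A B C := by
  have f0 : 1 + 2 * θ ≤ p := hi.1
  have f1 := fab h2 ha hb hc hi
  have f2 := fabc v0 ha hb hc hi
  have f3 : 2 * θ ≤ p - c := by rcases hc with rfl | rfl <;> linarith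
  have f4 : 2 * θ ≤ p - a := by rcases ha with rfl | rfl <;> linarith
  have f5 : 2 * θ ≤ p - b := by rcases hb with rfl | rfl <;> linarith
  have f6 := fac ha hb hc hi
  have f7 := fbc ha hb hc hi
  clear hi ha hb hc
  unfold Inv ds
  rcases hA with rfl | rfl <;> rcases hC with rfl | rfl <;> rcases hB with rfl | rfl <;>
    rcases hW with rfl | rfl <;> rcases hZ with rfl | rfl <;>
    rcases f1 with f1 | f1 <;> refine ⟨by linarith, by linarith, ?_⟩ <;>
    first
      | (left; linarith)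
      | (right; linarith)

/-- one vertex before, a block which is not split -/
theorem step_u1 {θ v a b c A C B : ℝ} (h1 : 1 / 3 ≤ θ) (h2 : θ ≤ 1 / 2) (v0 : 0 ≤ v)
    (ha : a = 0 ∨ a = 1) (hb : b = 0 ∨ b = 1) (hc : c = 0 ∨ c = 1)
    (hA : A = 0 ∨ A = 1) (hC : C = 0 ∨ C = 1) (hB : B = 0 ∨ B = 1)
    (habc : a + b + c ≤ 1) (hm : 1 ≤ A + C + B) :
    Inv θ (v + 2 - 3 * θ) (1 + θ + du θ a b c A C B) A B C := by
  have f1 : θ ≤ (1 + θ) - a - b := by
    rcases hc with rfl | rfl <;> linarith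
  have f2 : θ ≤ (1 + θ) - a - b - c := by linarith
  have f3 : θ ≤ (1 + θ) - c := by rcases hc with rfl | rfl <;> linarith
  clear ha hb hc habc
  unfold Inv du
  rcases hA with rfl | rfl <;> rcases hC with rfl | rfl <;> rcases hB with rfl | rfl <;>
    first
      | (exfalso; linarith)
      | (refine ⟨by linarith, by linarith, ?_⟩
         first
           | (left; linarith)
           | (right; linarith))

/-- nothing before, a block which is not split -/
theorem step_u0 {θ v A C B : ℝ} (h1 : 1 / 3 ≤ θ) (h2 : θ ≤ 1 / 2) (v0 : 0 ≤ v)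
    (hA : A = 0 ∨ A = 1) (hC : C = 0 ∨ C = 1) (hB : B = 0 ∨ B = 1) (hm : 2 ≤ A + C + B) :
    Inv θ (v + 2 - 3 * θ) (0 + du θ 0 0 0 A C B) A B C := by
  unfold Inv du
  rcases hA with rfl | rfl <;> rcases hC with rfl | rfl <;> rcases hB with rfl | rfl <;>
    first
      | (exfalso; linarith)
      | (refine ⟨by linarith, by linarith, ?_⟩
         first
           | (left; linarith)
           | (right; linarith))

/-- one vertex before, a split block -/
theorem step_s1 {θ v a b c A W Z C B : ℝ} (h1 : 1 / 3 ≤ θ) (h2 : θ ≤ 1 / 2)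
    (v2 : 0 ≤ v + 2 - 5 * θ) (ha : a = 0 ∨ a = 1) (hb : b = 0 ∨ b = 1) (hc : c = 0 ∨ c = 1)
    (hA : A = 0 ∨ A = 1) (hW : W = 0 ∨ W = 1) (hZ : Z = 0 ∨ Z = 1) (hC : C = 0 ∨ C = 1)
    (hB : B = 0 ∨ B = 1) (habc : a + b + c ≤ 1) (hm : 1 ≤ A + W + Z + C + B) :
    Inv θ (v + 2 - 5 * θ) (1 + θ + ds θ a b c A W Z C B) A B C := by
  have f1 : θ ≤ (1 + θ) - a - b := by
    rcases hc with rfl | rfl <;> linarith
  have f2 : θ ≤ (1 + θ) - a - b - c := by linarith
  have f3 : θ ≤ (1 + θ) - c := by rcases hc with rfl | rfl <;> linarith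
  have f4 : θ ≤ (1 + θ) - a := by rcases ha with rfl | rfl <;> linarith
  have f5 : θ ≤ (1 + θ) - b := by rcases hb with rfl | rfl <;> linarith
  have f6 : θ ≤ (1 + θ) - a - c := by rcases hb with rfl | rfl <;> linarith
  have f7 : θ ≤ (1 + θ) - b - c := by rcases ha with rfl | rfl <;> linarith
  clear ha hb hc habc
  unfold Inv ds
  rcases hA with rfl | rfl <;> rcases hC with rfl | rfl <;> rcases hB with rfl | rfl <;>
    rcases hW with rfl | rfl <;> rcases hZ with rfl | rfl <;>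
    first
      | (exfalso; linarith)
      | (refine ⟨by linarith, by linarith, ?_⟩
         first
           | (left; linarith)
           | (right; linarith))

/-- nothing before, a split block -/
theorem step_s0 {θ v A W Z C B : ℝ} (h1 : 1 / 3 ≤ θ) (h2 : θ ≤ 1 / 2)
    (v2 : 0 ≤ v + 2 - 5 * θ)
    (hA : A = 0 ∨ A = 1) (hW : W = 0 ∨ W = 1) (hZ : Z = 0 ∨ Z = 1) (hC : C = 0 ∨ C = 1)
    (hB : B = 0 ∨ B = 1) (hm : 2 ≤ A + W + Z + C + B) :
    Inv θ (v + 2 - 5 * θ) (0 + ds θ 0 0 0 A W Z C B) A B C := by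
  unfold Inv ds
  rcases hA with rfl | rfl <;> rcases hC with rfl | rfl <;> rcases hB with rfl | rfl <;>
    rcases hW with rfl | rfl <;> rcases hZ with rfl | rfl <;>
    first
      | (exfalso; linarith)
      | (refine ⟨by linarith, by linarith, ?_⟩
         first
           | (left; linarith)
           | (right; linarith))

end Pool.Agent.TwoDens.K3S
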