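import Pool.Agent.K3S.Graph
import Pool.Agent.K3S.Arith

/-!
The split chain: independence number and density.
-/

open Finset

namespace Pool.Agent.TwoDens.K3S

open Pool.Agent.TwoDens Pool.Agent.TwoDens.RK

variable {K : ℕ → Bool} {θ : ℝ} {S : Finset ℕ} {j : ℕ}

theorem ph_zero {N : ℕ} (h : (pre S N).card = 0) : ph K θ S N = 0 := by
  unfold ph
  rw [card_eq_zero] at h
  rw [h]
  simp [e2]

theorem ph_one {N : ℕ} (h : (pre S N).card = 1) : ph K θ S N = 1 + θ := by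
  unfold ph
  rw [h]
  rw [card_eq_one] at h
  obtain ⟨x, hx⟩ := h
  rw [hx, DD.e2_singleton]
  simp

theorem sum3 : ind S (5 * j) + ind S (5 * j + 4) + ind S (5 * j + 3) ≤
    (pre S (5 * (j + 1))).card := by
  have h := sum_ind_le (S := S) (T := {5 * j, 5 * j + 4, 5 * j + 3}) (N := 5 * (j + 1)) (by
    intro u hu
    simp only [mem_insert, mem_singleton] at hu
    omega)
  rw [sum_insert (by simp), sum_pair (by omega)] at h
  omega

theorem card_blk : (pre S (5 * (j + 2))).card = (pre S (5 * (j + 1))).card + ind S (5 * (j + 1)) +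
    ind S (5 * (j + 1) + 1) + ind S (5 * (j + 1) + 2) + ind S (5 * (j + 1) + 3) +
    ind S (5 * (j + 1) + 4) := by
  have e0 := card_pre_succ S (5 * (j + 1))
  have e1 := card_pre_succ S (5 * (j + 1) + 1)
  have e2' := card_pre_succ S (5 * (j + 1) + 2)
  have e3 := card_pre_succ S (5 * (j + 1) + 3)
  have e4 := card_pre_succ S (5 * (j + 1) + 4)
  have h : 5 * (j + 2) = 5 * (j + 1) + 4 + 1 := by ring
  have h3 : 5 * (j + 1) + 3 + 1 = 5 * (j + 1) + 4 := rfl
  have h4 : 5 * (j + 1) + 2 + 1 = 5 * (j + 1) + 3 := rfl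
  have h5 : 5 * (j + 1) + 1 + 1 = 5 * (j + 1) + 2 := rfl
  rw [h3] at e3
  rw [h4] at e2'
  rw [h5] at e1
  rw [h]
  omega

theorem ind_not {u : ℕ} (h : u ∉ S) : ind S u = 0 := by
  unfold ind
  rw [if_neg h]

theorem ph_u (hK : K (j + 1) = false) (h1 : 5 * (j + 1) + 1 ∉ S) (h2 : 5 * (j + 1) + 2 ∉ S) :
    ph K θ S (5 * (j + 2)) = ph K θ S (5 * (j + 1)) +
      du θ (ind S (5 * j)) (ind S (5 * j + 4)) (ind S (5 * j + 3)) (ind S (5 * (j + 1)))
        (ind S (5 * (j + 1) + 3)) (ind S (5 * (j + 1) + 4)) := by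
  have e0 := ph_succ (K := K) (θ := θ) (S := S) (T0u hK)
  have e1 := ph_succ (K := K) (θ := θ) (S := S) (T1 (K := K) (j := j))
  have e2' := ph_succ (K := K) (θ := θ) (S := S) (T2 (K := K) (j := j))
  have e3 := ph_succ (K := K) (θ := θ) (S := S) (T3u hK)
  have e4 := ph_succ (K := K) (θ := θ) (S := S) (T4 (K := K) (j := j))
  rw [ind_not h1] at e1
  rw [ind_not h2] at e2'
  rw [sum_pair (by omega)] at e0 e4
  rw [sum_singleton] at e3
  have h : 5 * (j + 2) = 5 * (j + 1) + 4 + 1 := by ring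
  have h3 : 5 * (j + 1) + 3 + 1 = 5 * (j + 1) + 4 := rfl
  have h4 : 5 * (j + 1) + 2 + 1 = 5 * (j + 1) + 3 := rfl
  have h5 : 5 * (j + 1) + 1 + 1 = 5 * (j + 1) + 2 := rfl
  rw [h3] at e3
  rw [h4] at e2'
  rw [h5] at e1
  rw [h, e4, e3, e2', e1, e0]
  unfold du
  push_cast
  ring

theorem ph_s (hK : K (j + 1) = true) :
    ph K θ S (5 * (j + 2)) = ph K θ S (5 * (j + 1)) +
      ds θ (ind S (5 * j)) (ind S (5 * j + 4)) (ind S (5 * j + 3)) (ind S (5 * (j + 1)))
        (ind S (5 * (j + 1) + 1)) (ind S (5 * (j + 1) + 2))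
        (ind S (5 * (j + 1) + 3)) (ind S (5 * (j + 1) + 4)) := by
  have e0 := ph_succ (K := K) (θ := θ) (S := S) (T0s hK)
  have e1 := ph_succ (K := K) (θ := θ) (S := S) (T1 (K := K) (j := j))
  have e2' := ph_succ (K := K) (θ := θ) (S := S) (T2 (K := K) (j := j))
  have e3 := ph_succ (K := K) (θ := θ) (S := S) (T3s hK)
  have e4 := ph_succ (K := K) (θ := θ) (S := S) (T4 (K := K) (j := j))
  rw [sum_pair (by omega)] at e2' e4
  rw [sum_singleton] at e0 e1 e3
  have h : 5 * (j + 2) = 5 * (j + 1) + 4 + 1 := by ring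
  have h3 : 5 * (j + 1) + 3 + 1 = 5 * (j + 1) + 4 := rfl
  have h4 : 5 * (j + 1) + 2 + 1 = 5 * (j + 1) + 3 := rfl
  have h5 : 5 * (j + 1) + 1 + 1 = 5 * (j + 1) + 2 := rfl
  rw [h3] at e3
  rw [h4] at e2'
  rw [h5] at e1
  rw [h, e4, e3, e2', e1, e0]
  unfold ds
  push_cast
  ring

theorem inv_u {v : ℝ} (h1 : 1 / 3 ≤ θ) (h2 : θ ≤ 1 / 2) (v0 : 0 ≤ v) (v1 : v ≤ 3 * θ - 1)
    (hK : K (j + 1) = false) (hS1 : 5 * (j + 1) + 1 ∉ S) (hS2 : 5 * (j + 1) + 2 ∉ S)
    (hi : 2 ≤ (pre S (5 * (j + 1))).card →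
      Inv θ v (ph K θ S (5 * (j + 1))) (ind S (5 * j)) (ind S (5 * j + 4)) (ind S (5 * j + 3)))
    (hc : 2 ≤ (pre S (5 * (j + 2))).card) :
    Inv θ (v + 2 - 3 * θ) (ph K θ S (5 * (j + 2))) (ind S (5 * (j + 1)))
      (ind S (5 * (j + 1) + 4)) (ind S (5 * (j + 1) + 3)) := by
  have h3 := card_blk (S := S) (j := j)
  rw [ind_not hS1, ind_not hS2] at h3
  have h4 := sum3 (S := S) (j := j)
  rw [ph_u hK hS1 hS2]
  rcases Nat.lt_or_ge (pre S (5 * (j + 1))).card 2 with h5 | h5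
  · rcases Nat.lt_or_ge (pre S (5 * (j + 1))).card 1 with h6 | h6
    · have h7 : (pre S (5 * (j + 1))).card = 0 := by omega
      have h8 : ind S (5 * j) = 0 := by omega
      have h9 : ind S (5 * j + 4) = 0 := by omega
      have h10 : ind S (5 * j + 3) = 0 := by omega
      rw [ph_zero h7, h8, h9, h10]
      have h11 : 2 ≤ ind S (5 * (j + 1)) + ind S (5 * (j + 1) + 3) + ind S (5 * (j + 1) + 4) := by
        omega
      have h12 : (2 : ℝ) ≤ (ind S (5 * (j + 1)) : ℝ) + ind S (5 * (j + 1) + 3) +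
          ind S (5 * (j + 1) + 4) := by exact_mod_cast h11
      have := step_u0 h1 h2 v0 (ind_casesR S (5 * (j + 1))) (ind_casesR S (5 * (j + 1) + 3))
        (ind_casesR S (5 * (j + 1) + 4)) h12
      simpa using this
    · have h7 : (pre S (5 * (j + 1))).card = 1 := by omega
      rw [ph_one h7]
      have h8 : ind S (5 * j) + ind S (5 * j + 4) + ind S (5 * j + 3) ≤ 1 := by omega
      have h9 : (ind S (5 * j) : ℝ) + ind S (5 * j + 4) + ind S (5 * j + 3) ≤ 1 := by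
        exact_mod_cast h8
      have h11 : 1 ≤ ind S (5 * (j + 1)) + ind S (5 * (j + 1) + 3) + ind S (5 * (j + 1) + 4) := by
        omega
      have h12 : (1 : ℝ) ≤ (ind S (5 * (j + 1)) : ℝ) + ind S (5 * (j + 1) + 3) +
          ind S (5 * (j + 1) + 4) := by exact_mod_cast h11
      exact step_u1 h1 h2 v0 (ind_casesR S _) (ind_casesR S _) (ind_casesR S _)
        (ind_casesR S _) (ind_casesR S _) (ind_casesR S _) h9 h12
  · exact step_u h1 h2 v0 v1 (ind_casesR S _) (ind_casesR S _) (ind_casesR S _)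
      (ind_casesR S _) (ind_casesR S _) (ind_casesR S _) (hi h5)

theorem inv_s {v : ℝ} (h1 : 1 / 3 ≤ θ) (h2 : θ ≤ 1 / 2) (v0 : 0 ≤ v) (v1 : v ≤ 2 * θ)
    (v2 : 5 * θ - 2 ≤ v) (hK : K (j + 1) = true)
    (hi : 2 ≤ (pre S (5 * (j + 1))).card →
      Inv θ v (ph K θ S (5 * (j + 1))) (ind S (5 * j)) (ind S (5 * j + 4)) (ind S (5 * j + 3)))
    (hc : 2 ≤ (pre S (5 * (j + 2))).card) :
    Inv θ (v + 2 - 5 * θ) (ph K θ S (5 * (j + 2))) (ind S (5 * (j + 1)))
      (ind S (5 * (j + 1) + 4)) (ind S (5 * (j + 1) + 3)) := by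
  have h3 := card_blk (S := S) (j := j)
  have h4 := sum3 (S := S) (j := j)
  rw [ph_s hK]
  rcases Nat.lt_or_ge (pre S (5 * (j + 1))).card 2 with h5 | h5
  · rcases Nat.lt_or_ge (pre S (5 * (j + 1))).card 1 with h6 | h6
    · have h7 : (pre S (5 * (j + 1))).card = 0 := by omega
      have h8 : ind S (5 * j) = 0 := by omega
      have h9 : ind S (5 * j + 4) = 0 := by omega
      have h10 : ind S (5 * j + 3) = 0 := by omega
      rw [ph_zero h7, h8, h9, h10]
      have h11 : 2 ≤ ind S (5 * (j + 1)) + ind S (5 * (j + 1) + 1) + ind S (5 * (j + 1) + 2) +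
          ind S (5 * (j + 1) + 3) + ind S (5 * (j + 1) + 4) := by
        omega
      have h12 : (2 : ℝ) ≤ (ind S (5 * (j + 1)) : ℝ) + ind S (5 * (j + 1) + 1) +
          ind S (5 * (j + 1) + 2) + ind S (5 * (j + 1) + 3) +
          ind S (5 * (j + 1) + 4) := by exact_mod_cast h11
      have := step_s0 h1 h2 (v := v) (by linarith) (ind_casesR S (5 * (j + 1)))
        (ind_casesR S (5 * (j + 1) + 1)) (ind_casesR S (5 * (j + 1) + 2))
        (ind_casesR S (5 * (j + 1) + 3)) (ind_casesR S (5 * (j + 1) + 4)) h12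
      simpa using this
    · have h7 : (pre S (5 * (j + 1))).card = 1 := by omega
      rw [ph_one h7]
      have h8 : ind S (5 * j) + ind S (5 * j + 4) + ind S (5 * j + 3) ≤ 1 := by omega
      have h9 : (ind S (5 * j) : ℝ) + ind S (5 * j + 4) + ind S (5 * j + 3) ≤ 1 := by
        exact_mod_cast h8
      have h11 : 1 ≤ ind S (5 * (j + 1)) + ind S (5 * (j + 1) + 1) + ind S (5 * (j + 1) + 2) +
          ind S (5 * (j + 1) + 3) + ind S (5 * (j + 1) + 4) := by
        omega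
      have h12 : (1 : ℝ) ≤ (ind S (5 * (j + 1)) : ℝ) + ind S (5 * (j + 1) + 1) +
          ind S (5 * (j + 1) + 2) + ind S (5 * (j + 1) + 3) +
          ind S (5 * (j + 1) + 4) := by exact_mod_cast h11
      exact step_s1 h1 h2 (by linarith) (ind_casesR S _) (ind_casesR S _) (ind_casesR S _)
        (ind_casesR S _) (ind_casesR S _) (ind_casesR S _) (ind_casesR S _) (ind_casesR S _)
        h9 h12
  · exact step_s h1 h2 v0 v1 v2 (ind_casesR S _) (ind_casesR S _) (ind_casesR S _)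
      (ind_casesR S _) (ind_casesR S _) (ind_casesR S _) (ind_casesR S _) (ind_casesR S _) (hi h5)

/-! ### The independence number -/

theorem ind_adj {x y : ℕ} (hI : (chn K).IsIndepSet (S : Set ℕ)) (h : R K x y) :
    ind S x + ind S y ≤ 1 := by
  unfold ind
  by_cases hx : x ∈ S
  · by_cases hy : y ∈ S
    · exact absurd (Or.inl h) (hI (mem_coe.2 hx) (mem_coe.2 hy) (by
        have := h.lt
        omega))
    · rw [if_pos hx, if_neg hy]
  · rw [if_neg hx]
    split_ifs <;> omega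

/-- number of splits in the blocks `1, ..., j` -/
def cnt (K : ℕ → Bool) : ℕ → ℕ
  | 0 => 0
  | j + 1 => cnt K j + (if K (j + 1) then 1 else 0)

theorem alpha_step (hI : (chn K).IsIndepSet (S : Set ℕ)) (hS : K (j + 1) = false →
      5 * (j + 1) + 1 ∉ S ∧ 5 * (j + 1) + 2 ∉ S) {M : ℕ}
    (h1 : (pre S (5 * (j + 1))).card ≤ M + 1)
    (h2 : ind S (5 * j) = 0 → ind S (5 * j + 4) = 0 → ind S (5 * j + 3) = 0 →
      (pre S (5 * (j + 1))).card ≤ M) :
    (pre S (5 * (j + 2))).card ≤ M + 1 + (if K (j + 1) then 1 else 0) + 1 ∧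
    (ind S (5 * (j + 1)) = 0 → ind S (5 * (j + 1) + 4) = 0 → ind S (5 * (j + 1) + 3) = 0 →
      (pre S (5 * (j + 2))).card ≤ M + 1 + (if K (j + 1) then 1 else 0)) := by
  have h3 := card_blk (S := S) (j := j)
  have i0 := ind_cases S (5 * j)
  have i1 := ind_cases S (5 * j + 4)
  have i2 := ind_cases S (5 * j + 3)
  have a1 := ind_adj (x := 5 * (j + 1) + 4) (y := 5 * (j + 1) + 3) hI ((T4 _).2 (by simp))
  have a2 := ind_adj (x := 5 * (j + 1) + 4) (y := 5 * j + 3) hI ((T4 _).2 (by simp))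
  by_cases hK : K (j + 1) = true
  · have a3 := ind_adj (x := 5 * (j + 1)) (y := 5 * j) hI ((T0s hK _).2 (by simp))
    have a4 := ind_adj (x := 5 * (j + 1) + 1) (y := 5 * (j + 1)) hI ((T1 _).2 (by simp))
    have a5 := ind_adj (x := 5 * (j + 1) + 2) (y := 5 * (j + 1) + 1) hI ((T2 _).2 (by simp))
    have a6 := ind_adj (x := 5 * (j + 1) + 2) (y := 5 * j + 4) hI ((T2 _).2 (by simp))
    have a7 := ind_adj (x := 5 * (j + 1) + 3) (y := 5 * (j + 1) + 2) hI ((T3s hK _).2 (by simp))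
    rw [if_pos hK]
    omega
  · have hK' : K (j + 1) = false := by simpa using hK
    have a3 := ind_adj (x := 5 * (j + 1)) (y := 5 * j) hI ((T0u hK' _).2 (by simp))
    have a4 := ind_adj (x := 5 * (j + 1)) (y := 5 * j + 4) hI ((T0u hK' _).2 (by simp))
    have a5 := ind_adj (x := 5 * (j + 1) + 3) (y := 5 * (j + 1)) hI ((T3u hK' _).2 (by simp))
    have a6 := ind_not (hS hK').1
    have a7 := ind_not (hS hK').2
    rw [if_neg hK]
    omega

end Pool.Agent.TwoDens.K3S
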