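import Pool.Agent.K3S.Pc
import Pool.Agent.T3L.Base

/-!
The split chain: definition, and counting edges along it.
-/

open Finset

namespace Pool.Agent.TwoDens.K3S

open Pool.Agent.TwoDens Pool.Agent.TwoDens.RK

/-- a piece from a graph on the natural numbers and a finite set of vertices -/
theorem Pc.ofFinset {D : ℝ} {n a : ℕ} (G : SimpleGraph ℕ) [DecidableRel G.Adj] (X : Finset ℕ)
    (hX : X.card = n)
    (h1 : ∀ S : Finset ℕ, S ⊆ X → G.IsIndepSet (S : Set ℕ) → S.card ≤ a)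
    (h2 : ∀ S : Finset ℕ, S ⊆ X → 2 ≤ S.card →
      (e2 G S : ℝ) ≤ 2 + 2 * D * ((S.card : ℝ) - 2)) : Pc D n a := by
  obtain ⟨f, hf⟩ : ∃ f : {x // x ∈ X} ↪ ℕ, ∀ x, f x = x.1 :=
    ⟨Function.Embedding.subtype _, fun _ => rfl⟩
  have hsub : ∀ S : Finset {x // x ∈ X}, S.map f ⊆ X := by
    intro S x hx
    rw [mem_map] at hx
    obtain ⟨y, _, rfl⟩ := hx
    rw [hf]
    exact y.2
  refine ⟨{x // x ∈ X}, inferInstance, inferInstance, G.comap f, inferInstance, ?_, ?_, ?_⟩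
  · rw [Fintype.card_coe, hX]
  · intro I hI
    have h3 := h1 (I.map f) (hsub I) (by
      intro x hx y hy hxy
      rw [Finset.mem_coe, mem_map] at hx hy
      obtain ⟨x', hx', rfl⟩ := hx
      obtain ⟨y', hy', rfl⟩ := hy
      exact hI hx' hy' (fun h => hxy (by rw [h])))
    rwa [Finset.card_map] at h3
  · intro S hS
    have h3 := h2 (S.map f) (hsub S) (by rwa [Finset.card_map])
    rw [Finset.card_map] at h3
    have h4 : e2 (G.comap f) S = e2 G (S.map f) := by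
      unfold e2
      rw [Finset.sum_map]
      refine Finset.sum_congr rfl ?_
      intro x _
      rw [Finset.filter_map, Finset.card_map]
      rfl
    rw [h4]
    exact h3

/-- `u` is an earlier neighbour of `N` in the chain; block `j` consists of the numbers
`5 j, ..., 5 j + 4` (vertices `a, w, z, c, b`), where `w, z` are used only if `K j` -/
def R (K : ℕ → Bool) (N u : ℕ) : Prop :=
  (N % 5 = 0 ∧ (u + 5 = N ∨ (K (N / 5) = false ∧ u + 1 = N))) ∨
  (N % 5 = 1 ∧ u + 1 = N) ∨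
  (N % 5 = 2 ∧ (u + 1 = N ∨ u + 3 = N)) ∨
  (N % 5 = 3 ∧ ((K (N / 5) = true ∧ u + 1 = N) ∨ (K (N / 5) = false ∧ u + 3 = N))) ∨
  (N % 5 = 4 ∧ (u + 1 = N ∨ u + 6 = N))

instance (K : ℕ → Bool) : DecidableRel (R K) := by
  intro N u
  unfold R
  infer_instance

theorem R.lt {K : ℕ → Bool} {N u : ℕ} (h : R K N u) : u < N := by
  unfold R at h
  rcases h with ⟨_, h | ⟨_, h⟩⟩ | ⟨_, h⟩ | ⟨_, h | h⟩ | ⟨_, ⟨_, h⟩ | ⟨_, h⟩⟩ | ⟨_, h | h⟩ <;> omega

/-- the chain -/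
def chn (K : ℕ → Bool) : SimpleGraph ℕ where
  Adj x y := R K x y ∨ R K y x
  symm := ⟨fun _ _ h => Or.symm h⟩
  loopless := ⟨fun x h => by
    rcases h with h | h <;> exact absurd h.lt (lt_irrefl x)⟩

instance (K : ℕ → Bool) : DecidableRel (chn K).Adj := fun x y =>
  inferInstanceAs (Decidable (R K x y ∨ R K y x))

/-- indicator -/
def ind (S : Finset ℕ) (u : ℕ) : ℕ := if u ∈ S then 1 else 0

theorem ind_cases (S : Finset ℕ) (u : ℕ) : ind S u = 0 ∨ ind S u = 1 := by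
  unfold ind
  split_ifs
  · exact Or.inr rfl
  · exact Or.inl rfl

theorem ind_casesR (S : Finset ℕ) (u : ℕ) : (ind S u : ℝ) = 0 ∨ (ind S u : ℝ) = 1 := by
  rcases ind_cases S u with h | h
  · left
    rw [h]
    simp
  · right
    rw [h]
    simp

/-- the part of `S` below `N` -/
def pre (S : Finset ℕ) (N : ℕ) : Finset ℕ := S.filter (· < N)

theorem mem_pre {S : Finset ℕ} {N u : ℕ} : u ∈ pre S N ↔ u ∈ S ∧ u < N := by
  unfold pre
  rw [mem_filter]

theorem pre_succ_mem {S : Finset ℕ} {N : ℕ} (h : N ∈ S) : pre S (N + 1) = insert N (pre S N) := by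
  ext u
  rw [mem_insert, mem_pre, mem_pre]
  constructor
  · rintro ⟨h1, h2⟩
    rcases Nat.lt_or_ge u N with h3 | h3
    · exact Or.inr ⟨h1, h3⟩
    · exact Or.inl (by omega)
  · rintro (rfl | ⟨h1, h2⟩)
    · exact ⟨h, by omega⟩
    · exact ⟨h1, by omega⟩

theorem pre_succ_not {S : Finset ℕ} {N : ℕ} (h : N ∉ S) : pre S (N + 1) = pre S N := by
  ext u
  rw [mem_pre, mem_pre]
  constructor
  · rintro ⟨h1, h2⟩
    refine ⟨h1, ?_⟩
    have : u ≠ N := fun h3 => h (h3 ▸ h1)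
    omega
  · rintro ⟨h1, h2⟩
    exact ⟨h1, by omega⟩

theorem notMem_pre {S : Finset ℕ} {N : ℕ} : N ∉ pre S N := fun h =>
  lt_irrefl N (mem_pre.1 h).2

theorem card_pre_succ (S : Finset ℕ) (N : ℕ) : (pre S (N + 1)).card = (pre S N).card + ind S N := by
  unfold ind
  split_ifs with h
  · rw [pre_succ_mem h, card_insert_of_notMem notMem_pre]
  · rw [pre_succ_not h, add_zero]

/-- the sum of indicators of vertices below `N` -/
theorem sum_ind_le {S T : Finset ℕ} {N : ℕ} (hT : ∀ u ∈ T, u < N) :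
    ∑ u ∈ T, ind S u ≤ (pre S N).card := by
  unfold ind
  rw [← card_filter]
  refine card_le_card ?_
  intro u hu
  rw [mem_filter] at hu
  exact mem_pre.2 ⟨hu.2, hT u hu.1⟩

/-- number of earlier neighbours -/
theorem nb_card {K : ℕ → Bool} {S T : Finset ℕ} {N : ℕ} (hT : ∀ u, R K N u ↔ u ∈ T) :
    (nb (chn K) (pre S N) N).card = ∑ u ∈ T, ind S u := by
  unfold ind
  rw [← card_filter]
  congr 1
  ext u
  rw [mem_nb, mem_pre, mem_filter, ← hT]
  constructor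
  · rintro ⟨⟨h1, h2⟩, h3 | h3⟩
    · exact ⟨h3, h1⟩
    · exact absurd h3.lt (by omega)
  · rintro ⟨h1, h2⟩
    exact ⟨⟨h2, h1.lt⟩, Or.inl h1⟩

/-- the weight of the part of `S` below `N` -/
noncomputable def ph (K : ℕ → Bool) (θ : ℝ) (S : Finset ℕ) (N : ℕ) : ℝ :=
  (1 + θ) * ((pre S N).card : ℝ) - (e2 (chn K) (pre S N) : ℝ) / 2

theorem ph_succ {K : ℕ → Bool} {θ : ℝ} {S T : Finset ℕ} {N : ℕ} (hT : ∀ u, R K N u ↔ u ∈ T) :
    ph K θ S (N + 1) = ph K θ S N + (ind S N : ℝ) * (1 + θ - ((∑ u ∈ T, ind S u : ℕ) : ℝ)) := by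
  rw [← nb_card hT]
  by_cases h : N ∈ S
  · have h1 : ind S N = 1 := by
      unfold ind
      rw [if_pos h]
    unfold ph
    rw [h1, pre_succ_mem h, T3.e2_insert notMem_pre, card_insert_of_notMem notMem_pre]
    push_cast
    ring
  · have h1 : ind S N = 0 := by
      unfold ind
      rw [if_neg h]
    unfold ph
    rw [h1, pre_succ_not h]
    push_cast
    ring

/-! ### The earlier neighbours in block `j + 1` -/

theorem T0s {K : ℕ → Bool} {j : ℕ} (hK : K (j + 1) = true) (u : ℕ) :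
    R K (5 * (j + 1)) u ↔ u ∈ ({5 * j} : Finset ℕ) := by
  have h1 : 5 * (j + 1) % 5 = 0 := by omega
  have h2 : 5 * (j + 1) / 5 = j + 1 := by omega
  unfold R
  rw [h1, h2, hK, mem_singleton]
  simp
  omega

theorem T0u {K : ℕ → Bool} {j : ℕ} (hK : K (j + 1) = false) (u : ℕ) :
    R K (5 * (j + 1)) u ↔ u ∈ ({5 * j, 5 * j + 4} : Finset ℕ) := by
  have h1 : 5 * (j + 1) % 5 = 0 := by omega
  have h2 : 5 * (j + 1) / 5 = j + 1 := by omega
  unfold R
  rw [h1, h2, hK, mem_insert, mem_singleton]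
  simp
  omega

theorem T1 {K : ℕ → Bool} {j : ℕ} (u : ℕ) :
    R K (5 * (j + 1) + 1) u ↔ u ∈ ({5 * (j + 1)} : Finset ℕ) := by
  have h1 : (5 * (j + 1) + 1) % 5 = 1 := by omega
  unfold R
  rw [h1, mem_singleton]
  simp

theorem T2 {K : ℕ → Bool} {j : ℕ} (u : ℕ) :
    R K (5 * (j + 1) + 2) u ↔ u ∈ ({5 * (j + 1) + 1, 5 * j + 4} : Finset ℕ) := by
  have h1 : (5 * (j + 1) + 2) % 5 = 2 := by omega
  unfold R
  rw [h1, mem_insert, mem_singleton]
  simp
  omega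

theorem T3s {K : ℕ → Bool} {j : ℕ} (hK : K (j + 1) = true) (u : ℕ) :
    R K (5 * (j + 1) + 3) u ↔ u ∈ ({5 * (j + 1) + 2} : Finset ℕ) := by
  have h1 : (5 * (j + 1) + 3) % 5 = 3 := by omega
  have h2 : (5 * (j + 1) + 3) / 5 = j + 1 := by omega
  unfold R
  rw [h1, h2, hK, mem_singleton]
  simp

theorem T3u {K : ℕ → Bool} {j : ℕ} (hK : K (j + 1) = false) (u : ℕ) :
    R K (5 * (j + 1) + 3) u ↔ u ∈ ({5 * (j + 1)} : Finset ℕ) := by
  have h1 : (5 * (j + 1) + 3) % 5 = 3 := by omega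
  have h2 : (5 * (j + 1) + 3) / 5 = j + 1 := by omega
  unfold R
  rw [h1, h2, hK, mem_singleton]
  simp

theorem T4 {K : ℕ → Bool} {j : ℕ} (u : ℕ) :
    R K (5 * (j + 1) + 4) u ↔ u ∈ ({5 * (j + 1) + 3, 5 * j + 3} : Finset ℕ) := by
  have h1 : (5 * (j + 1) + 4) % 5 = 4 := by omega
  unfold R
  rw [h1, mem_insert, mem_singleton]
  simp
  omega

end Pool.Agent.TwoDens.K3S
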