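import Pool.Agent.TwoDens.Bridge

/-!
Pieces: graphs with given numbers of vertices, bounded independence number and bounded
density, and their disjoint unions.
-/

open Finset

namespace Pool.Agent.TwoDens.K3S

/-- there is a graph on `n` vertices without an independent set of more than `a` vertices, in which
every set `S` of at least two vertices spans at most `1 + D (|S| - 2)` edges -/
def Pc (D : ℝ) (n a : ℕ) : Prop :=
  ∃ (V : Type) (_ : Fintype V) (_ : DecidableEq V) (G : SimpleGraph V) (_ : DecidableRel G.Adj),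
    Fintype.card V = n ∧ (∀ I : Finset V, G.IsIndepSet (I : Set V) → I.card ≤ a) ∧
    ∀ S : Finset V, 2 ≤ S.card → (e2 G S : ℝ) ≤ 2 + 2 * D * ((S.card : ℝ) - 2)

theorem Pc.mono {D D' : ℝ} {n a : ℕ} (h : Pc D n a) (hD : D ≤ D') : Pc D' n a := by
  obtain ⟨V, h1, h2, G, h3, h4, h5, h6⟩ := h
  refine ⟨V, h1, h2, G, h3, h4, h5, fun S hS => (h6 S hS).trans ?_⟩
  have h7 : (2 : ℝ) ≤ S.card := by exact_mod_cast hS
  nlinarith

/-- the connection with `minTwoDensity` -/
theorem Pc.min {D : ℝ} {n a r m : ℕ} (h : Pc D n a) (hD : 0 ≤ D) (hm : m ≤ n) (ha : a < r) :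
    minTwoDensity m r ≤ D := by
  obtain ⟨V, h1, h2, G, h3, h4, h5, h6⟩ := h
  refine minTwoDensity_le hD G (by omega) (fun I hI => lt_of_le_of_lt (h5 I hI) ha) ?_
  intro Y hY
  exact h6 Y (by omega)

/-- a piece from a graph on the natural numbers -/
theorem Pc.ofNat {D : ℝ} {n a : ℕ} (G : SimpleGraph ℕ) [DecidableRel G.Adj]
    (h1 : ∀ S : Finset ℕ, S ⊆ range n → G.IsIndepSet (S : Set ℕ) → S.card ≤ a)
    (h2 : ∀ S : Finset ℕ, S ⊆ range n → 2 ≤ S.card →
      (e2 G S : ℝ) ≤ 2 + 2 * D * ((S.card : ℝ) - 2)) : Pc D n a := by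
  have hsub : ∀ S : Finset (Fin n), S.map Fin.valEmbedding ⊆ range n := by
    intro S x hx
    rw [mem_map] at hx
    obtain ⟨y, _, rfl⟩ := hx
    exact mem_range.2 y.isLt
  refine ⟨Fin n, inferInstance, inferInstance, G.comap Fin.valEmbedding, inferInstance,
    Fintype.card_fin n, ?_, ?_⟩
  · intro I hI
    have h3 := h1 (I.map Fin.valEmbedding) (hsub I) (by
      intro x hx y hy hxy
      rw [Finset.mem_coe, mem_map] at hx hy
      obtain ⟨x', hx', rfl⟩ := hx
      obtain ⟨y', hy', rfl⟩ := hy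
      exact hI hx' hy' (fun h => hxy (by rw [h])))
    rwa [Finset.card_map] at h3
  · intro S hS
    have h3 := h2 (S.map Fin.valEmbedding) (hsub S) (by rwa [Finset.card_map])
    rw [Finset.card_map] at h3
    have h4 : e2 (G.comap Fin.valEmbedding) S = e2 G (S.map Fin.valEmbedding) := by
      unfold e2
      rw [Finset.sum_map]
      refine Finset.sum_congr rfl ?_
      intro x _
      rw [Finset.filter_map, Finset.card_map]
      rfl
    rw [h4]
    exact h3

end Pool.Agent.TwoDens.K3S
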