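import Pool.Agent.K3S.Chain

/-!
The split chain with evenly spaced splits: the pieces for all pairs `(d, a)` with
`3 d ≤ 2 a ≤ 4 d - 2`.
-/

open Finset

namespace Pool.Agent.TwoDens.K3S

open Pool.Agent.TwoDens Pool.Agent.TwoDens.RK

/-- vertex set of the blocks `1, ..., s` -/
def vs (K : ℕ → Bool) (s : ℕ) : Finset ℕ :=
  (range (5 * (s + 1))).filter (fun N => 5 ≤ N ∧ (N % 5 = 3 ∨ N % 5 = 4 ∨
    (10 ≤ N ∧ N % 5 = 0) ∨ (K (N / 5) = true ∧ (N % 5 = 1 ∨ N % 5 = 2))))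

/-- which blocks are split -/
def KW (e t : ℕ) : ℕ → Bool
  | 0 => false
  | 1 => false
  | (j + 2) => decide (j + 1 ≤ e ∧ 4 * e + 2 ≤ (j * (4 * t + 3)) % (4 * e + 2) + (4 * t + 3))

theorem KW_iff {e t j : ℕ} (hj : j + 1 ≤ e) :
    KW e t (j + 2) = true ↔ 4 * e + 2 ≤ (j * (4 * t + 3)) % (4 * e + 2) + (4 * t + 3) := by
  unfold KW
  rw [decide_eq_true_iff]
  exact ⟨fun h => h.2, fun h => ⟨hj, h⟩⟩

theorem KW_last (e t : ℕ) : KW e t (e + 2) = false := by
  unfold KW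
  rw [decide_eq_false_iff_not]
  omega

/-- the remainders -/
theorem rem_step {e t j : ℕ} (h2 : t + 1 ≤ e) (hj : j + 1 ≤ e) :
    (KW e t (j + 2) = true → ((j + 1) * (4 * t + 3)) % (4 * e + 2) + (4 * e + 2) =
      (j * (4 * t + 3)) % (4 * e + 2) + (4 * t + 3)) ∧
    (KW e t (j + 2) = false → ((j + 1) * (4 * t + 3)) % (4 * e + 2) =
      (j * (4 * t + 3)) % (4 * e + 2) + (4 * t + 3)) := by
  have h3 : (j + 1) * (4 * t + 3) = j * (4 * t + 3) + (4 * t + 3) := by ring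
  have h4 : ((j + 1) * (4 * t + 3)) % (4 * e + 2) =
      ((j * (4 * t + 3)) % (4 * e + 2) + (4 * t + 3)) % (4 * e + 2) := by
    rw [h3, Nat.mod_add_mod]
  have h5 : (j * (4 * t + 3)) % (4 * e + 2) < 4 * e + 2 := Nat.mod_lt _ (by omega)
  rw [h4]
  constructor
  · intro h
    rw [KW_iff hj] at h
    rw [Nat.mod_eq_sub_mod h, Nat.mod_eq_of_lt (by omega)]
    omega
  · intro h
    have h6 : ¬ 4 * e + 2 ≤ (j * (4 * t + 3)) % (4 * e + 2) + (4 * t + 3) := by
      rw [← KW_iff hj, h]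
      decide
    rw [Nat.mod_eq_of_lt (by omega)]

theorem cnt_rem {e t : ℕ} (h2 : t + 1 ≤ e) : ∀ j, j ≤ e →
    (4 * e + 2) * cnt (KW e t) (j + 1) + (j * (4 * t + 3)) % (4 * e + 2) = j * (4 * t + 3) := by
  intro j
  induction j with
  | zero =>
    intro _
    simp [cnt, KW]
  | succ j ih =>
    intro hj
    have h3 := ih (by omega)
    have h4 := rem_step (t := t) h2 hj
    have h5 : (j + 1) * (4 * t + 3) = j * (4 * t + 3) + (4 * t + 3) := by ring
    have h6 : cnt (KW e t) (j + 1 + 1) = cnt (KW e t) (j + 1) +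
        (if KW e t (j + 2) then 1 else 0) := rfl
    rw [h6]
    cases hK : KW e t (j + 2) with
    | true =>
      have h7 := h4.1 hK
      rw [if_pos rfl, mul_add]
      omega
    | false =>
      have h7 := h4.2 hK
      rw [if_neg (by decide), mul_add]
      omega

theorem cnt_last {e t : ℕ} (h2 : t + 1 ≤ e) (h3 : e ≤ 2 * t + 1) :
    cnt (KW e t) (e + 1) = t ∧ (e * (4 * t + 3)) % (4 * e + 2) + 2 * t = 3 * e := by
  have h4 := cnt_rem h2 e le_rfl
  have h5 : (e * (4 * t + 3)) % (4 * e + 2) < 4 * e + 2 := Nat.mod_lt _ (by omega)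
  obtain ⟨c, hc⟩ : ∃ c, c = cnt (KW e t) (e + 1) := ⟨_, rfl⟩
  obtain ⟨r, hr⟩ : ∃ r, r = (e * (4 * t + 3)) % (4 * e + 2) := ⟨_, rfl⟩
  rw [← hc, ← hr] at h4
  rw [← hr] at h5
  rw [← hc, ← hr]
  have h6 : e * (4 * t + 3) + 2 * t = (4 * e + 2) * t + 3 * e := by ring
  have h7 : c = t := by
    rcases Nat.lt_trichotomy c t with h8 | h8 | h8
    · exfalso
      have h9 : (4 * e + 2) * (c + 1) ≤ (4 * e + 2) * t := Nat.mul_le_mul_left _ h8
      rw [mul_add] at h9
      omega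
    · exact h8
    · exfalso
      have h9 : (4 * e + 2) * (t + 1) ≤ (4 * e + 2) * c := Nat.mul_le_mul_left _ h8
      rw [mul_add] at h9
      omega
  rw [h7] at h4
  exact ⟨h7, by omega⟩

theorem mem_vs {K : ℕ → Bool} {s N : ℕ} : N ∈ vs K s ↔ N < 5 * (s + 1) ∧ 5 ≤ N ∧
    (N % 5 = 3 ∨ N % 5 = 4 ∨ (10 ≤ N ∧ N % 5 = 0) ∨
      (K (N / 5) = true ∧ (N % 5 = 1 ∨ N % 5 = 2))) := by
  unfold vs
  rw [mem_filter, mem_range]

theorem vs_not {K : ℕ → Bool} {s j : ℕ} (hK : K j = false) :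
    5 * j + 1 ∉ vs K s ∧ 5 * j + 2 ∉ vs K s := by
  constructor
  · intro h
    rw [mem_vs] at h
    have h1 : (5 * j + 1) / 5 = j := by omega
    rw [h1, hK] at h
    obtain ⟨_, _, h | h | h | h⟩ := h
    · omega
    · omega
    · omega
    · exact absurd h.1 (by decide)
  · intro h
    rw [mem_vs] at h
    have h1 : (5 * j + 2) / 5 = j := by omega
    rw [h1, hK] at h
    obtain ⟨_, _, h | h | h | h⟩ := h
    · omega
    · omega
    · omega
    · exact absurd h.1 (by decide)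

theorem ind_yes {S : Finset ℕ} {u : ℕ} (h : u ∈ S) : ind S u = 1 := by
  unfold ind
  rw [if_pos h]

theorem pre_all {K : ℕ → Bool} {s : ℕ} {S : Finset ℕ} (hS : S ⊆ vs K s) :
    pre S (5 * (s + 1)) = S := by
  ext u
  rw [mem_pre]
  exact ⟨fun h => h.1, fun h => ⟨h, (mem_vs.1 (hS h)).1⟩⟩

/-- the part below block 1 is empty -/
theorem pre_five {K : ℕ → Bool} {s : ℕ} {S : Finset ℕ} (hS : S ⊆ vs K s) :
    (pre S (5 * (0 + 1))).card = 0 := by
  rw [card_eq_zero, eq_empty_iff_forall_notMem]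
  intro u hu
  rw [mem_pre] at hu
  have := (mem_vs.1 (hS hu.1)).2.1
  omega

theorem not_five {K : ℕ → Bool} {s : ℕ} {S : Finset ℕ} (hS : S ⊆ vs K s) : 5 * (0 + 1) ∉ S := by
  intro h
  have h1 := (mem_vs.1 (hS h)).2.2
  obtain h2 | h2 | h2 | h2 := h1 <;> omega

theorem card_vs {K : ℕ → Bool} (hK1 : K 1 = false) {s : ℕ} : ∀ j, j + 1 ≤ s →
    (pre (vs K s) (5 * (j + 2))).card = 3 * j + 2 + 2 * cnt K (j + 1) := by
  intro j
  have hblk : ∀ i, i + 1 ≤ s → ind (vs K s) (5 * (i + 1) + 3) = 1 ∧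
      ind (vs K s) (5 * (i + 1) + 4) = 1 := by
    intro i hi
    exact ⟨ind_yes (mem_vs.2 ⟨by omega, by omega, by omega⟩),
      ind_yes (mem_vs.2 ⟨by omega, by omega, by omega⟩)⟩
  have hw : ∀ i, i + 1 ≤ s → ind (vs K s) (5 * (i + 1) + 1) = (if K (i + 1) then 1 else 0) ∧
      ind (vs K s) (5 * (i + 1) + 2) = (if K (i + 1) then 1 else 0) := by
    intro i hi
    by_cases h : K (i + 1) = true
    · rw [if_pos h]
      refine ⟨ind_yes (mem_vs.2 ⟨by omega, by omega, ?_⟩),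
        ind_yes (mem_vs.2 ⟨by omega, by omega, ?_⟩)⟩
      · right; right; right
        rw [show (5 * (i + 1) + 1) / 5 = i + 1 by omega]
        exact ⟨h, by omega⟩
      · right; right; right
        rw [show (5 * (i + 1) + 2) / 5 = i + 1 by omega]
        exact ⟨h, by omega⟩
    · rw [if_neg h]
      have h' : K (i + 1) = false := by simpa using h
      exact ⟨ind_not (vs_not h').1, ind_not (vs_not h').2⟩
  induction j with
  | zero =>
    intro hj
    have h1 := card_blk (S := vs K s) (j := 0)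
    have h2 := pre_five (Subset.refl (vs K s))
    have h3 := hblk 0 hj
    have h4 := hw 0 hj
    have h5 := ind_not (not_five (Subset.refl (vs K s)))
    have h6 : cnt K (0 + 1) = 0 := by
      show 0 + (if K 1 then 1 else 0) = 0
      rw [hK1]
      rfl
    rw [h6]
    rw [show K (0 + 1) = false from hK1, if_neg (by decide)] at h4
    omega
  | succ j ih =>
    intro hj
    have h1 := card_blk (S := vs K s) (j := j + 1)
    have h2 : (pre (vs K s) (5 * (j + 1 + 1))).card = 3 * j + 2 + 2 * cnt K (j + 1) :=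
      ih (by omega)
    have h3 := hblk (j + 1) hj
    have h4 := hw (j + 1) hj
    have h5 : ind (vs K s) (5 * (j + 1 + 1)) = 1 :=
      ind_yes (mem_vs.2 ⟨by omega, by omega, by omega⟩)
    have h6 : cnt K (j + 1 + 1) = cnt K (j + 1) + (if K (j + 1 + 1) then 1 else 0) := rfl
    rw [h6]
    omega

theorem alpha_all {K : ℕ → Bool} (hK1 : K 1 = false) {s : ℕ} {S : Finset ℕ} (hS : S ⊆ vs K s)
    (hI : (chn K).IsIndepSet (S : Set ℕ)) : ∀ j,
    (pre S (5 * (j + 2))).card ≤ j + cnt K (j + 1) + 1 ∧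
    (ind S (5 * (j + 1)) = 0 → ind S (5 * (j + 1) + 4) = 0 → ind S (5 * (j + 1) + 3) = 0 →
      (pre S (5 * (j + 2))).card ≤ j + cnt K (j + 1)) := by
  intro j
  induction j with
  | zero =>
    have h1 := card_blk (S := S) (j := 0)
    have h2 := pre_five hS
    have h5 := ind_not (not_five hS)
    have h6 := ind_not (fun h => (vs_not (s := s) hK1).1 (hS h))
    have h7 := ind_not (fun h => (vs_not (s := s) hK1).2 (hS h))
    have h8 := ind_adj (x := 5 * (0 + 1) + 4) (y := 5 * (0 + 1) + 3) hI ((T4 _).2 (by simp))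
    have h9 : (ind S (5 * (0 + 1) + 1)) = 0 := h6
    have h10 : (ind S (5 * (0 + 1) + 2)) = 0 := h7
    constructor
    · omega
    · intro _ _ _
      omega
  | succ j ih =>
    have h1 := alpha_step (j := j + 1) hI (fun hK => ⟨fun h => (vs_not hK).1 (hS h),
      fun h => (vs_not hK).2 (hS h)⟩) (M := j + cnt K (j + 1)) ih.1 ih.2
    have h6 : cnt K (j + 1 + 1) = cnt K (j + 1) + (if K (j + 1 + 1) then 1 else 0) := rfl
    rw [h6]
    constructor
    · have := h1.1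
      omega
    · intro ha hb hc
      have := h1.2 ha hb hc
      omega

/-- the invariant along the chain -/
theorem inv_all {e t : ℕ} (h1 : 1 ≤ e) (h2 : t + 1 ≤ e) (h3 : e ≤ 2 * t + 1) {S : Finset ℕ}
    (hS : S ⊆ vs (KW e t) (e + 2)) {m θ : ℝ} (hm : m = 3 * (e : ℝ) + 2 * t + 3)
    (hθ : θ = (2 * (e : ℝ) + 1) / m) : ∀ j, j ≤ e → 2 ≤ (pre S (5 * (j + 2))).card →
    Inv θ (((j * (4 * t + 3)) % (4 * e + 2) : ℕ) / m) (ph (KW e t) θ S (5 * (j + 2)))
      (ind S (5 * (j + 1))) (ind S (5 * (j + 1) + 4)) (ind S (5 * (j + 1) + 3)) := by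
  have hmpos : 0 < m := by
    rw [hm]
    positivity
  have hθm : θ * m = 2 * e + 1 := by
    rw [hθ]
    exact div_mul_cancel₀ _ hmpos.ne'
  have h3R : (e : ℝ) ≤ 2 * t + 1 := by exact_mod_cast h3
  have h2R : (t : ℝ) + 1 ≤ e := by exact_mod_cast h2
  have hθ1 : 1 / 3 ≤ θ := by
    rw [hθ, div_le_div_iff₀ (by norm_num) hmpos, hm]
    linarith
  have hθ2 : θ ≤ 1 / 2 := by
    rw [hθ, div_le_div_iff₀ hmpos (by norm_num), hm]
    linarith
  intro j
  induction j with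
  | zero =>
    intro _ hc
    have a1 := card_blk (S := S) (j := 0)
    have a2 := pre_five hS
    have a5 := ind_not (not_five hS)
    have hK1 : KW e t (0 + 1) = false := rfl
    have a6 : 5 * (0 + 1) + 1 ∉ S := fun h => (vs_not hK1).1 (hS h)
    have a7 : 5 * (0 + 1) + 2 ∉ S := fun h => (vs_not hK1).2 (hS h)
    have a8 := ind_cases S (5 * (0 + 1) + 3)
    have a9 := ind_cases S (5 * (0 + 1) + 4)
    rw [ind_not a6, ind_not a7] at a1
    have b1 : ind S (5 * (0 + 1) + 3) = 1 := by omega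
    have b2 : ind S (5 * (0 + 1) + 4) = 1 := by omega
    have b3 := sum3 (S := S) (j := 0)
    rw [a2] at b3
    have b4 : ind S (5 * 0) = 0 := by omega
    have b5 : ind S (5 * 0 + 4) = 0 := by omega
    have b6 : ind S (5 * 0 + 3) = 0 := by omega
    rw [ph_u hK1 a6 a7, ph_zero a2, b1, b2, b4, b5, b6, a5]
    unfold Inv du
    refine ⟨?_, ?_, ?_⟩
    · push_cast
      linarith
    · simp
      linarith
    · left
      push_cast
      linarith
  | succ j ih =>
    intro hj hc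
    have ih' := ih (by omega)
    have r1 := rem_step (t := t) h2 hj
    obtain ⟨r, hr⟩ : ∃ r, r = (j * (4 * t + 3)) % (4 * e + 2) := ⟨_, rfl⟩
    obtain ⟨r', hr'⟩ : ∃ r', r' = ((j + 1) * (4 * t + 3)) % (4 * e + 2) := ⟨_, rfl⟩
    rw [← hr] at ih' r1
    rw [← hr'] at r1
    rw [← hr']
    have hrlt : r < 4 * e + 2 := by
      rw [hr]
      exact Nat.mod_lt _ (by omega)
    have hr'lt : r' < 4 * e + 2 := by
      rw [hr']
      exact Nat.mod_lt _ (by omega)
    have hrR : (r : ℝ) < 4 * e + 2 := by exact_mod_cast hrlt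
    have hr0 : (0 : ℝ) ≤ r := Nat.cast_nonneg _
    have v0 : 0 ≤ (r : ℝ) / m := div_nonneg hr0 hmpos.le
    cases hK : KW e t (j + 2) with
    | true =>
      have r2 := r1.1 hK
      have r3 : (r' : ℝ) + (4 * e + 2) = r + (4 * t + 3) := by exact_mod_cast r2
      have hr'0 : (0 : ℝ) ≤ r' := Nat.cast_nonneg _
      have v1 : (r : ℝ) / m ≤ 2 * θ := by
        rw [div_le_iff₀ hmpos, mul_assoc, hθm]
        linarith
      have v2 : 5 * θ - 2 ≤ (r : ℝ) / m := by
        rw [le_div_iff₀ hmpos, sub_mul, mul_assoc, hθm, hm]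
        linarith
      have h := inv_s (S := S) (K := KW e t) (j := j + 1) hθ1 hθ2 v0 v1 v2 hK ih' hc
      have hv : (r : ℝ) / m + 2 - 5 * θ = (r' : ℝ) / m := by
        have : (r' : ℝ) = r + 2 * m - 5 * (θ * m) := by
          rw [hθm, hm]
          linarith
        rw [this]
        field_simp
      rw [hv] at h
      exact h
    | false =>
      have r2 := r1.2 hK
      have r3 : (r' : ℝ) = r + (4 * t + 3) := by exact_mod_cast r2
      have r4 : r + (4 * t + 3) + 1 ≤ 4 * e + 2 := by omega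
      have r5 : (r : ℝ) + (4 * t + 3) + 1 ≤ 4 * e + 2 := by exact_mod_cast r4
      have v1 : (r : ℝ) / m ≤ 3 * θ - 1 := by
        rw [div_le_iff₀ hmpos, sub_mul, mul_assoc, hθm, hm]
        linarith
      have h := inv_u (S := S) (K := KW e t) (j := j + 1) hθ1 hθ2 v0 v1 hK
        (fun h => (vs_not hK).1 (hS h)) (fun h => (vs_not hK).2 (hS h)) ih' hc
      have hv : (r : ℝ) / m + 2 - 3 * θ = (r' : ℝ) / m := by
        have : (r' : ℝ) = r + 2 * m - 3 * (θ * m) := by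
          rw [hθm, hm, r3]
          ring
        rw [this]
        field_simp
      rw [hv] at h
      exact h

/-- the piece -/
theorem piece_et {e t : ℕ} (h1 : 1 ≤ e) (h2 : t + 1 ≤ e) (h3 : e ≤ 2 * t + 1) :
    Pc (1 + (2 * (e : ℝ) + 1) / (3 * (e : ℝ) + 2 * t + 3)) (3 * e + 2 * t + 5) (e + t + 2) := by
  obtain ⟨m, hm⟩ : ∃ m : ℝ, m = 3 * (e : ℝ) + 2 * t + 3 := ⟨_, rfl⟩
  rw [← hm]
  obtain ⟨θ, hθ⟩ : ∃ θ : ℝ, θ = (2 * (e : ℝ) + 1) / m := ⟨_, rfl⟩
  rw [← hθ]
  have hmpos : 0 < m := by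
    rw [hm]
    positivity
  have hθm : θ * m = 2 * e + 1 := by
    rw [hθ]
    exact div_mul_cancel₀ _ hmpos.ne'
  have h3R : (e : ℝ) ≤ 2 * t + 1 := by exact_mod_cast h3
  have h2R : (t : ℝ) + 1 ≤ e := by exact_mod_cast h2
  have hθ1 : 1 / 3 ≤ θ := by
    rw [hθ, div_le_div_iff₀ (by norm_num) hmpos, hm]
    linarith
  have hθ2 : θ ≤ 1 / 2 := by
    rw [hθ, div_le_div_iff₀ hmpos (by norm_num), hm]
    linarith
  have hl := cnt_last h2 h3
  have hcl : cnt (KW e t) (e + 1 + 1) = t := by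
    have h6 : cnt (KW e t) (e + 1 + 1) = cnt (KW e t) (e + 1) +
      (if KW e t (e + 2) then 1 else 0) := rfl
    rw [h6, KW_last, hl.1]
    rfl
  have hK1 : KW e t 1 = false := rfl
  refine Pc.ofFinset (chn (KW e t)) (vs (KW e t) (e + 2)) ?_ ?_ ?_
  · have h := card_vs hK1 (s := e + 2) (e + 1) (by omega)
    have h' : pre (vs (KW e t) (e + 2)) (5 * (e + 1 + 2)) = vs (KW e t) (e + 2) :=
      pre_all (Subset.refl _)
    rw [h', hcl] at h
    omega
  · intro S hS hI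
    have h := (alpha_all hK1 hS hI (e + 1)).1
    have h' : pre S (5 * (e + 1 + 2)) = S := pre_all hS
    rw [h', hcl] at h
    omega
  · intro S hS hc
    have h' : pre S (5 * (e + 1 + 2)) = S := pre_all hS
    have hr := hl.2
    have hrR : (((e * (4 * t + 3)) % (4 * e + 2) : ℕ) : ℝ) + 2 * t = 3 * e := by
      exact_mod_cast hr
    have v0 : (0 : ℝ) ≤ (((e * (4 * t + 3)) % (4 * e + 2) : ℕ) : ℝ) / m :=
      div_nonneg (Nat.cast_nonneg _) hmpos.le
    have v1 : (((e * (4 * t + 3)) % (4 * e + 2) : ℕ) : ℝ) / m ≤ 3 * θ - 1 := by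
      rw [div_le_iff₀ hmpos, sub_mul, mul_assoc, hθm, hm]
      linarith
    have hK := KW_last e t
    have h := inv_u (S := S) (K := KW e t) (j := e + 1) hθ1 hθ2 v0 v1 hK
      (fun h => (vs_not hK).1 (hS h)) (fun h => (vs_not hK).2 (hS h))
      (inv_all h1 h2 h3 hS hm hθ e le_rfl) (by rw [h']; exact hc)
    have h4 := h.1
    unfold ph at h4
    rw [h'] at h4
    linarith

/-- the piece for every pair `(d, a)` -/
theorem hE : ∀ d a : ℕ, 2 ≤ d → 3 * d ≤ 2 * a → a + 1 ≤ 2 * d →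
    Pc (1 + (2 * (d : ℝ) - 1) / (2 * (a : ℝ) + d - 2)) (2 * a + d) a := by
  intro d a h1 h2 h3
  obtain ⟨e, he⟩ : ∃ e, d = e + 1 := ⟨d - 1, by omega⟩
  obtain ⟨t, ht⟩ : ∃ t, a = e + t + 2 := ⟨a - e - 2, by omega⟩
  have h := piece_et (e := e) (t := t) (by omega) (by omega) (by omega)
  have e1 : 1 + (2 * (d : ℝ) - 1) / (2 * (a : ℝ) + d - 2) =
      1 + (2 * (e : ℝ) + 1) / (3 * (e : ℝ) + 2 * t + 3) := by
    rw [he, ht]
    push_cast
    congr 2 <;> ring
  have e2' : 2 * a + d = 3 * e + 2 * t + 5 := by omega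
  rw [e1, e2', ht]
  exact h

end Pool.Agent.TwoDens.K3S
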