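import Pool.Agent.K3S.Add

/-!
All pieces from the pieces with `3 d ≤ 2 a < 4 d`, and the upper bound for
`M (2 s + i, s + 1)`, `3 i ≤ 2 s`.
-/

open Finset

namespace Pool.Agent.TwoDens.K3S

/-- the density of a piece with `2 a + d` vertices and independence number `a` -/
noncomputable def X (d a : ℕ) : ℝ := 1 + (2 * (d : ℝ) - 1) / (2 * a + d - 2)

theorem X_ge_one {d a : ℕ} (hd : 1 ≤ d) (ha : 1 ≤ a) : 1 ≤ X d a := by
  have h1 : (1 : ℝ) ≤ d := by exact_mod_cast hd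
  have h2 : (1 : ℝ) ≤ a := by exact_mod_cast ha
  unfold X
  have h3 : 0 ≤ (2 * (d : ℝ) - 1) / (2 * a + d - 2) := div_nonneg (by linarith) (by linarith)
  linarith

/-- comparison of two densities -/
theorem X_le {r b d a : ℕ} (hr : 1 ≤ r) (hb : 1 ≤ b) (hd : 1 ≤ d) (ha : 1 ≤ a)
    (h : (2 * (r : ℝ) - 1) * (2 * a + d - 2) ≤ (2 * d - 1) * (2 * b + r - 2)) :
    X r b ≤ X d a := by
  have h1 : (1 : ℝ) ≤ r := by exact_mod_cast hr
  have h2 : (1 : ℝ) ≤ b := by exact_mod_cast hb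
  have h3 : (1 : ℝ) ≤ d := by exact_mod_cast hd
  have h4 : (1 : ℝ) ≤ a := by exact_mod_cast ha
  unfold X
  have h5 : (2 * (r : ℝ) - 1) / (2 * b + r - 2) ≤ (2 * (d : ℝ) - 1) / (2 * a + d - 2) := by
    rw [div_le_div_iff₀ (by linarith) (by linarith)]
    exact h
  linarith

/-- the pieces with `2 d ≤ a < 3 d` -/
theorem Pc.mid {d a : ℕ} (hd : 1 ≤ d) (h1 : 2 * d ≤ a) (h2 : a + 1 ≤ 3 * d) :
    Pc (X d a) (2 * a + d) a := by
  obtain ⟨w, hw⟩ : ∃ w, 3 * d = a + (w + 1) := ⟨3 * d - a - 1, by omega⟩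
  have hq : (w + 1) * (d / (w + 1)) ≤ d := Nat.mul_div_le d (w + 1)
  have hq' : d < (w + 1) * (d / (w + 1) + 1) := Nat.lt_mul_div_succ d (Nat.succ_pos w)
  have hq0 : 1 ≤ d / (w + 1) := (Nat.one_le_div_iff (Nat.succ_pos w)).2 (by omega)
  obtain ⟨p, hp⟩ : ∃ p, d / (w + 1) = p + 1 := ⟨d / (w + 1) - 1, by omega⟩
  rw [hp] at hq hq'
  have e1 : (w + 1) * (p + 1) = w * (p + 1) + (p + 1) := by ring
  have e2 : (w + 1) * (p + 1 + 1) = (w + 1) * (p + 1) + (w + 1) := by ring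
  obtain ⟨Q, hQ⟩ : ∃ Q, d = w * (p + 1) + (Q + 1) := ⟨d - w * (p + 1) - 1, by omega⟩
  have hpQ : p ≤ Q := by omega
  have hp0 : (0 : ℝ) ≤ p := Nat.cast_nonneg p
  have hw0 : (0 : ℝ) ≤ w := Nat.cast_nonneg w
  have hpos : (0 : ℝ) < 7 * (p : ℝ) + 3 := by linarith
  have hD1 : (1 : ℝ) ≤ (9 * (p : ℝ) + 4) / (7 * p + 3) := by
    rw [le_div_iff₀ hpos]
    linarith
  have h3 := (Pc.mul hD1 (Pc.hub (le_refl p)) w).add hD1 (Pc.hub hpQ)
  have h4 : w * (7 * p + 5) + (7 * Q + 5) = 2 * a + d := by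
    have h5 : w * (7 * p + 5) + 2 * w = 7 * (w * (p + 1)) := by ring
    omega
  have h5 : w * (3 * p + 2) + (3 * Q + 2) = a := by
    have h6 : w * (3 * p + 2) + w = 3 * (w * (p + 1)) := by ring
    omega
  rw [h4, h5] at h3
  refine h3.mono ?_
  have g1 : (3 : ℝ) * d = a + (w + 1) := by exact_mod_cast hw
  have g2 : (d : ℝ) + 1 ≤ (w + 1) * (p + 1 + 1) := by exact_mod_cast hq'
  have g3 : (1 : ℝ) ≤ d := by exact_mod_cast hd
  have g4 : (2 : ℝ) * d ≤ a := by exact_mod_cast h1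
  have g5 : (0 : ℝ) < 2 * a + d - 2 := by linarith
  unfold X
  have g6 : (9 * (p : ℝ) + 4) / (7 * p + 3) = 1 + (2 * p + 1) / (7 * p + 3) := by
    field_simp
    ring
  have g7 : (2 * (p : ℝ) + 1) / (7 * p + 3) ≤ (2 * (d : ℝ) - 1) / (2 * a + d - 2) := by
    rw [div_le_div_iff₀ hpos g5]
    have g8 : (a : ℝ) = 3 * d - (w + 1) := by linarith
    rw [g8]
    nlinarith [mul_nonneg hp0 hw0]
  linarith

/-- the pieces with `3 d ≤ a` -/
theorem Pc.big {d a : ℕ} (hd : 1 ≤ d) (h1 : 3 * d ≤ a) : Pc (X d a) (2 * a + d) a := by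
  obtain ⟨e, rfl⟩ : ∃ e, d = e + 1 := ⟨d - 1, by omega⟩
  have hq : (e + 1) * (a / (e + 1)) ≤ a := Nat.mul_div_le a (e + 1)
  have hq' : a < (e + 1) * (a / (e + 1) + 1) := Nat.lt_mul_div_succ a (Nat.succ_pos e)
  have hq0 : 3 ≤ a / (e + 1) := (Nat.le_div_iff_mul_le (Nat.succ_pos e)).2 h1
  set l := a / (e + 1) with hl
  have e1 : (e + 1) * l = e * l + l := by ring
  obtain ⟨b, hb⟩ : ∃ b, a = e * l + b := ⟨a - e * l, by omega⟩
  have hlb : l ≤ b := by omega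
  have hl3 : (3 : ℝ) ≤ l := by exact_mod_cast hq0
  have hlb' : (l : ℝ) ≤ b := by exact_mod_cast hlb
  have he0 : (0 : ℝ) ≤ e := Nat.cast_nonneg e
  have hpos : (0 : ℝ) < 2 * (l : ℝ) - 1 := by linarith
  have hD1 : (1 : ℝ) ≤ 1 + 1 / (2 * (l : ℝ) - 1) := by
    have : (0 : ℝ) ≤ 1 / (2 * (l : ℝ) - 1) := by positivity
    linarith
  have h2 : Pc (1 + 1 / (2 * (l : ℝ) - 1)) (2 * b + 1) b := by
    refine (Pc.cyc (show 1 ≤ b by omega)).mono ?_
    have : 1 / (2 * (b : ℝ) - 1) ≤ 1 / (2 * (l : ℝ) - 1) :=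
      one_div_le_one_div_of_le hpos (by linarith)
    linarith
  have h3 := (Pc.mul hD1 (Pc.cyc (show 1 ≤ l by omega)) e).add hD1 h2
  have h4 : e * (2 * l + 1) + (2 * b + 1) = 2 * a + (e + 1) := by
    have h5 : e * (2 * l + 1) = 2 * (e * l) + e := by ring
    omega
  rw [h4, ← hb] at h3
  refine h3.mono ?_
  have g2 : (a : ℝ) + 1 ≤ (e + 1) * (l + 1) := by exact_mod_cast hq'
  have g4 : (3 : ℝ) * (e + 1) ≤ a := by exact_mod_cast h1
  unfold X
  push_cast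
  have g7 : 1 / (2 * (l : ℝ) - 1) ≤ (2 * ((e : ℝ) + 1) - 1) / (2 * a + (e + 1) - 2) := by
    rw [div_le_div_iff₀ hpos (by linarith)]
    nlinarith [mul_nonneg he0 (show (0 : ℝ) ≤ 2 * l - 5 by linarith)]
  linarith

/-- all pieces -/
theorem Pc.all (hE : ∀ d a : ℕ, 2 ≤ d → 3 * d ≤ 2 * a → a + 1 ≤ 2 * d →
    Pc (X d a) (2 * a + d) a) {d a : ℕ} (hd : 1 ≤ d) (h : 3 * d ≤ 2 * a) :
    Pc (X d a) (2 * a + d) a := by
  rcases (show a + 1 ≤ 2 * d ∨ (2 * d ≤ a ∧ a + 1 ≤ 3 * d) ∨ 3 * d ≤ a by omega)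
    with h1 | h1 | h1
  · exact hE d a (by omega) h h1
  · exact Pc.mid hd h1.1 h1.2
  · exact Pc.big hd h1

/-- the upper bound for one `d` with `3 d ≤ 2 a` -/
theorem upperS_aux (hE : ∀ d a : ℕ, 2 ≤ d → 3 * d ≤ 2 * a → a + 1 ≤ 2 * d →
    Pc (X d a) (2 * a + d) a) {s i d a : ℕ} (hd : 1 ≤ d) (hdi : d ≤ i)
    (ha : a * i ≤ d * s) (h3 : 3 * d ≤ 2 * a) :
    minTwoDensity (2 * s + i) (s + 1) ≤ X d a := by
  have ha1 : 1 ≤ a := by omega
  obtain ⟨k, r, hr1, hrd, hi⟩ : ∃ k r, 1 ≤ r ∧ r ≤ d ∧ i = k * d + r := by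
    refine ⟨(i - 1) / d, (i - 1) % d + 1, by omega, ?_, ?_⟩
    · exact Nat.mod_lt _ (by omega)
    · have := Nat.div_add_mod (i - 1) d
      rw [Nat.mul_comm] at this
      omega
  have hka : k * a ≤ s := by
    have h1 : d * (k * a) ≤ d * s := by
      refine le_trans ?_ ha
      rw [hi]
      nlinarith
    exact Nat.le_of_mul_le_mul_left h1 (by omega)
  obtain ⟨b, hb⟩ : ∃ b, s = k * a + b := ⟨s - k * a, by omega⟩
  have hrb : r * a ≤ d * b := by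
    rw [hi, hb] at ha
    nlinarith
  have h3r : 3 * r ≤ 2 * b := by
    have h1 : d * (3 * r) ≤ d * (2 * b) := by nlinarith
    exact Nat.le_of_mul_le_mul_left h1 (by omega)
  have hX1 := X_ge_one hd ha1
  have p1 : Pc (X d a) (2 * a + d) a := Pc.all hE hd h3
  have p2 : Pc (X d a) (2 * b + r) b := by
    refine (Pc.all hE hr1 h3r).mono (X_le hr1 (by omega) hd ha1 ?_)
    have g1 : (1 : ℝ) ≤ d := by exact_mod_cast hd
    have g2 : (r : ℝ) ≤ d := by exact_mod_cast hrd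
    have g3 : (r : ℝ) * a ≤ d * b := by exact_mod_cast hrb
    have g4 : (3 : ℝ) * d ≤ 2 * a := by exact_mod_cast h3
    have g5 : 0 ≤ (d * b - r * a) * (4 * (d : ℝ) - 2) + (d - r) * (2 * a - 3 * d) :=
      add_nonneg (mul_nonneg (by linarith) (by linarith))
        (mul_nonneg (by linarith) (by linarith))
    have g6 : 0 ≤ (d : ℝ) * ((2 * d - 1) * (2 * b + r - 2) - (2 * (r : ℝ) - 1) * (2 * a + d - 2)) := by
      have g7 : (d : ℝ) * ((2 * d - 1) * (2 * b + r - 2) - (2 * (r : ℝ) - 1) * (2 * a + d - 2)) =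
        (d * b - r * a) * (4 * (d : ℝ) - 2) + (d - r) * (2 * a - 3 * d) := by ring
      rw [g7]
      exact g5
    have g8 := nonneg_of_mul_nonneg_right g6 (by linarith)
    linarith
  have h4 := (Pc.mul hX1 p1 k).add hX1 p2
  have h5 : k * (2 * a + d) + (2 * b + r) = 2 * s + i := by
    rw [hb, hi]
    ring
  rw [h5, ← hb] at h4
  exact h4.min (by linarith) le_rfl (Nat.lt_succ_self s)

/-- the upper bound -/
theorem upperS (hE : ∀ d a : ℕ, 2 ≤ d → 3 * d ≤ 2 * a → a + 1 ≤ 2 * d →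
    Pc (X d a) (2 * a + d) a) {s i d : ℕ} (hd : 1 ≤ d) (hdi : d ≤ i) (hs : 3 * i ≤ 2 * s) :
    minTwoDensity (2 * s + i) (s + 1) ≤ X d (d * s / i) := by
  have hi : 0 < i := by omega
  have hdiv : d * s / i * i ≤ d * s := Nat.div_mul_le_self _ _
  by_cases h3 : 3 * d ≤ 2 * (d * s / i)
  · exact upperS_aux hE hd hdi hdiv h3
  · by_cases h1 : i = 1
    · subst h1
      have : d = 1 := by omega
      subst this
      rw [Nat.one_mul, Nat.div_one] at h3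
      omega
    · have h2 : 3 ≤ 2 * s / i := (Nat.le_div_iff_mul_le hi).2 (by omega)
      have h4 := upperS_aux hE (s := s) (i := i) (d := 2) (a := 2 * s / i) (by omega) (by omega)
        (Nat.div_mul_le_self _ _) (by omega)
      refine h4.trans ?_
      have h5 : 1 ≤ d * s / i := (Nat.one_le_div_iff hi).2 (by nlinarith)
      refine X_le (by omega) (by omega) hd h5 ?_
      have g1 : (3 : ℝ) ≤ ((2 * s / i : ℕ) : ℝ) := by exact_mod_cast h2
      have g2 : 2 * ((d * s / i : ℕ) : ℝ) + 1 ≤ 3 * d := by exact_mod_cast (by omega)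
      have g3 : (1 : ℝ) ≤ d := by exact_mod_cast hd
      push_cast at g1 g2 ⊢
      nlinarith

end Pool.Agent.TwoDens.K3S
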